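import Mathlib

/-!
# A Tychonoff SHD space whose Stone–Čech compactification is not SHD
-/

namespace Pool.Agent.Results.MP_b7f2db_gt.BetaNotSHD

open Set Filter Topology

/-- A space `Z` is selectively highly divergent: for every sequence `U n` of nonempty open sets
there are points `x n ∈ U n` such that no subsequence of `(x n)` converges in `Z`. -/
def SHD (Z : Type*) [TopologicalSpace Z] : Prop :=
  ∀ U : ℕ → Set Z, (∀ n, IsOpen (U n) ∧ (U n).Nonempty) →
    ∃ x : ℕ → Z, (∀ n, x n ∈ U n) ∧
      ∀ k : ℕ → ℕ, StrictMono k → ∀ z : Z, ¬ Tendsto (fun j => x (k j)) atTop (𝓝 z)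

/-! ## The factor `S` -/

/-- The Cantor cube `S` of weight `𝔠`. -/
abbrev S : Type := ((ℕ → ℕ) × (ℕ → ℕ)) → Bool

theorem shd_S : SHD S := by
  classical
  intro U hU
  have h1 : ∀ n, ∃ (T : Finset ((ℕ → ℕ) × (ℕ → ℕ))) (a : S), ∀ s : S, (∀ i ∈ T, s i = a i) →
      s ∈ U n := by
    intro n
    obtain ⟨hopen, a, ha⟩ := hU n
    obtain ⟨I, u, hu, hIU⟩ := isOpen_pi_iff.1 hopen a ha
    refine ⟨I, a, fun s hs => hIU ?_⟩
    intro i hi
    rw [hs i hi]
    exact (hu i hi).2
  choose T a hT using h1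
  have hD : (⋃ n, Prod.snd '' (T n : Set ((ℕ → ℕ) × (ℕ → ℕ)))).Countable :=
    Set.countable_iUnion fun n => (T n).countable_toSet.image _
  obtain ⟨t, ht⟩ : ∃ t : ℕ → ℕ, t ∉ ⋃ n, Prod.snd '' (T n : Set ((ℕ → ℕ) × (ℕ → ℕ))) := by
    by_contra hcon
    push Not at hcon
    have h2 : (Set.univ : Set (ℕ → ℕ)).Countable := hD.mono fun t _ => hcon t
    rw [Set.countable_univ_iff, ← Cardinal.mk_le_aleph0_iff] at h2
    have h3 : Cardinal.mk (ℕ → ℕ) = Cardinal.continuum := by simp
    rw [h3] at h2
    exact absurd h2 (not_le.2 Cardinal.aleph0_lt_continuum)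
  have ht' : ∀ n k, (k, t) ∉ T n := fun n k hk => ht (Set.mem_iUnion.2 ⟨n, (k, t), hk, rfl⟩)
  refine ⟨fun n i => if i ∈ T n then a n i else
    if ∃ j, Even j ∧ i.1 j = n then true else false, ?_, ?_⟩
  · intro n
    apply hT
    intro i hi
    simp only [if_pos hi]
  · intro k hk z hz
    have h2 := (continuous_apply (k, t)).continuousAt.tendsto.comp hz
    have h3 : ∀ᶠ j in atTop, ((fun i => if i ∈ T (k j) then a (k j) i else
        if ∃ j', Even j' ∧ i.1 j' = k j then true else false) : S) (k, t) = z (k, t) := by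
      have := h2.eventually (isOpen_discrete {z (k, t)} |>.mem_nhds rfl)
      exact this
    have h4 : ∀ j, ((fun i => if i ∈ T (k j) then a (k j) i else
        if ∃ j', Even j' ∧ i.1 j' = k j then true else false) : S) (k, t) = decide (Even j) := by
      intro j
      simp only [ht' (k j) k, if_false]
      by_cases hj : Even j
      · rw [if_pos ⟨j, hj, rfl⟩]
        simp [hj]
      · rw [if_neg]
        · simp [hj]
        · rintro ⟨j', hj', h⟩
          exact hj (hk.injective h ▸ hj')
    obtain ⟨N, hN⟩ := eventually_atTop.1 h3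
    have h5 := (h4 (2 * N)).symm.trans (hN (2 * N) (by omega))
    have h6 := (h4 (2 * N + 1)).symm.trans (hN (2 * N + 1) (by omega))
    have h7 : decide (Even (2 * N)) = decide (Even (2 * N + 1)) := h5.trans h6.symm
    simp at h7

/-! ## The space -/

/-- The index set: the functions from `ℕ` to `ℕ`, with the discrete topology. -/
structure Idx : Type where
  /-- the function -/
  f : ℕ → ℕ

instance : TopologicalSpace Idx := ⊥

instance : DiscreteTopology Idx := ⟨rfl⟩

/-- `V` is the countable power of the one-point compactification of the discrete space `Idx`. -/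
abbrev V : Type := ℕ → OnePoint Idx

/-- The levels. -/
abbrev Lev : Type := ℕ × (V × S)

open scoped Classical in
/-- The map of the levels into the Cantor cube. -/
noncomputable def φ (x : Lev) : Idx → Bool := fun g => decide (x.2.1 (g.f x.1) = (g : OnePoint Idx))

theorem φ_eq_true {x : Lev} {g : Idx} : φ x g = true ↔ x.2.1 (g.f x.1) = (g : OnePoint Idx) := by
  simp [φ]

theorem φ_eq_false {x : Lev} {g : Idx} : φ x g = false ↔ x.2.1 (g.f x.1) ≠ (g : OnePoint Idx) := by
  simp [φ]

theorem continuous_φ : Continuous φ := by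
  classical
  refine continuous_pi fun g => ?_
  have h1 : Continuous fun y : OnePoint Idx => decide (y = (g : OnePoint Idx)) := by
    have h2 : IsClopen ({(g : OnePoint Idx)} : Set (OnePoint Idx)) := by
      refine ⟨isClosed_singleton, ?_⟩
      have : ({(g : OnePoint Idx)} : Set (OnePoint Idx)) = (↑) '' ({g} : Set Idx) := by simp
      rw [this, OnePoint.isOpen_image_coe]
      exact isOpen_discrete _
    rw [continuous_discrete_rng]
    intro b
    cases b
    · have : (fun y : OnePoint Idx => decide (y = (g : OnePoint Idx))) ⁻¹' {false} =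
          ({(g : OnePoint Idx)} : Set (OnePoint Idx))ᶜ := by
        ext y
        simp
      rw [this]
      exact h2.compl.isOpen
    · have : (fun y : OnePoint Idx => decide (y = (g : OnePoint Idx))) ⁻¹' {true} =
          ({(g : OnePoint Idx)} : Set (OnePoint Idx)) := by
        ext y
        simp
      rw [this]
      exact h2.isOpen
  have h2 : Continuous fun x : Lev => x.2.1 (g.f x.1) := by
    rw [continuous_prod_of_discrete_left]
    intro n
    exact (continuous_apply (g.f n)).comp continuous_fst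
  exact h1.comp h2

theorem countable_supp (x : Lev) : {g | φ x g = true}.Countable := by
  have h1 : (Set.range x.2.1).Countable := Set.countable_range _
  have h2 := h1.preimage (f := ((↑) : Idx → OnePoint Idx)) OnePoint.coe_injective
  apply h2.mono
  intro g hg
  exact ⟨g.f x.1, φ_eq_true.1 hg⟩

/-- The graph of `φ` in the ambient compact space. -/
noncomputable def ψ (x : Lev) : OnePoint Lev × (Idx → Bool) := ((x : OnePoint Lev), φ x)

theorem continuous_ψ : Continuous ψ := OnePoint.continuous_coe.prodMk continuous_φ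

/-- The space `X`: the levels together with the points `(∞, r)` in the closure of their union
for which `r` has uncountable support. -/
def X : Type := {p : OnePoint Lev × (Idx → Bool) // (∃ x : Lev, p = ψ x) ∨
  (p.1 = OnePoint.infty ∧ ¬ {g | p.2 g = true}.Countable ∧ p ∈ closure (Set.range ψ))}

instance : TopologicalSpace X := instTopologicalSpaceSubtype

instance : T35Space X := by
  unfold X
  infer_instance

/-- The points of the levels. -/
noncomputable def pt (x : Lev) : X := ⟨ψ x, Or.inl ⟨x, rfl⟩⟩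

theorem continuous_pt : Continuous pt := continuous_ψ.subtype_mk _

/-- Basic neighbourhoods of the points at infinity. -/
theorem nbhd_inf {r : Idx → Bool} {M : Set (OnePoint Lev × (Idx → Bool))}
    (hM : M ∈ 𝓝 ((OnePoint.infty : OnePoint Lev), r)) :
    ∃ (N : ℕ) (T : Finset Idx), ∀ x : Lev, N ≤ x.1 → ∀ q : Idx → Bool, (∀ g ∈ T, q g = r g) →
      ((x : OnePoint Lev), q) ∈ M := by
  rw [nhds_prod_eq, mem_prod_iff] at hM
  obtain ⟨u, hu, v, hv, huv⟩ := hM
  rw [OnePoint.nhds_infty_eq, Filter.mem_sup] at hu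
  have hu1 := Filter.mem_map.1 hu.1
  obtain ⟨K, ⟨-, hK⟩, hKu⟩ := Filter.hasBasis_coclosedCompact.mem_iff.1 hu1
  obtain ⟨N, hN⟩ := (hK.image continuous_fst).bddAbove
  obtain ⟨v', hv', hv'o, hrv'⟩ := mem_nhds_iff.1 hv
  obtain ⟨I, w, hw, hIw⟩ := isOpen_pi_iff.1 hv'o r hrv'
  refine ⟨N + 1, I, ?_⟩
  intro x hx q hq
  apply huv
  refine ⟨hKu ?_, hv' (hIw ?_)⟩
  · intro hxK
    have := hN ⟨x, hxK, rfl⟩
    omega
  · intro i hi
    change q i ∈ w i
    rw [hq i hi]
    exact (hw i hi).2

theorem exists_level {U : Set X} (hU : IsOpen U) (hne : U.Nonempty) : ∃ x : Lev, pt x ∈ U := by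
  obtain ⟨⟨p, hp⟩, hpU⟩ := hne
  rcases hp with ⟨x, rfl⟩ | ⟨h1, h2, h3⟩
  · exact ⟨x, hpU⟩
  · obtain ⟨O, hO, rfl⟩ := isOpen_induced_iff.1 hU
    obtain ⟨_, hq, x, rfl⟩ := mem_closure_iff.1 h3 O hO hpU
    exact ⟨x, hq⟩

/-- `X` is selectively highly divergent. -/
theorem shd_X : SHD X := by
  intro U hU
  have h1 := fun n => exists_level (hU n).1 (hU n).2
  choose x hx using h1
  have hc : ∀ n, Continuous fun s : S => pt ((x n).1, ((x n).2.1, s)) := fun n =>
    continuous_pt.comp (continuous_const.prodMk (continuous_const.prodMk continuous_id))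
  obtain ⟨s, hs1, hs2⟩ := shd_S (fun n => (fun s : S => pt ((x n).1, ((x n).2.1, s))) ⁻¹' (U n))
    (fun n => ⟨(hU n).1.preimage (hc n), ⟨(x n).2.2, hx n⟩⟩)
  refine ⟨fun n => pt ((x n).1, ((x n).2.1, s n)), hs1, ?_⟩
  rintro k hk ⟨p, hp⟩ hlim
  have hlim' : Tendsto (fun j => ψ ((x (k j)).1, ((x (k j)).2.1, s (k j)))) atTop (𝓝 p) :=
    (continuous_subtype_val.tendsto _).comp hlim
  rcases hp with ⟨y, rfl⟩ | ⟨h1, h2, h3⟩
  · have h4 : Tendsto (fun j => (((x (k j)).1, ((x (k j)).2.1, s (k j))) : Lev)) atTop (𝓝 y) := by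
      rw [OnePoint.isOpenEmbedding_coe.tendsto_nhds_iff]
      exact (continuous_fst.tendsto _).comp hlim'
    have h5 : Tendsto (fun j => s (k j)) atTop (𝓝 y.2.2) :=
      ((continuous_snd.comp continuous_snd).tendsto y).comp h4
    exact hs2 k hk _ h5
  · apply h2
    have h4 : (⋃ j, {g | φ ((x (k j)).1, ((x (k j)).2.1, s (k j))) g = true}).Countable :=
      Set.countable_iUnion fun j => countable_supp _
    apply h4.mono
    intro g hg
    by_contra hcon
    simp only [Set.mem_iUnion, not_exists] at hcon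
    have h5 : Tendsto (fun j => φ ((x (k j)).1, ((x (k j)).2.1, s (k j))) g) atTop (𝓝 (p.2 g)) :=
      (((continuous_apply g).comp continuous_snd).tendsto p).comp hlim'
    have h6 := h5.eventually (isOpen_discrete {p.2 g} |>.mem_nhds rfl)
    obtain ⟨j, hj⟩ := h6.exists
    have hj' : φ ((x (k j)).1, ((x (k j)).2.1, s (k j))) g = p.2 g := hj
    exact hcon j (hj'.trans hg)

/-- `X` is not compact. -/
theorem not_compact : ¬ CompactSpace X := by
  intro h
  have h1 : IsClosed {p : OnePoint Lev × (Idx → Bool) | (∃ x : Lev, p = ψ x) ∨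
      (p.1 = OnePoint.infty ∧ ¬ {g | p.2 g = true}.Countable ∧ p ∈ closure (Set.range ψ))} := by
    have h2 : CompactSpace {p : OnePoint Lev × (Idx → Bool) | (∃ x : Lev, p = ψ x) ∨
      (p.1 = OnePoint.infty ∧ ¬ {g | p.2 g = true}.Countable ∧ p ∈ closure (Set.range ψ))} := h
    exact (isCompact_iff_compactSpace.2 h2).isClosed
  have h2 : ((OnePoint.infty : OnePoint Lev), fun _ : Idx => false) ∈
      closure {p : OnePoint Lev × (Idx → Bool) | (∃ x : Lev, p = ψ x) ∨
      (p.1 = OnePoint.infty ∧ ¬ {g | p.2 g = true}.Countable ∧ p ∈ closure (Set.range ψ))} := by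
    rw [mem_closure_iff_nhds]
    intro M hM
    obtain ⟨N, T, hNT⟩ := nbhd_inf hM
    refine ⟨ψ (N, (fun _ => OnePoint.infty, fun _ => false)), hNT _ le_rfl _ ?_, Or.inl ⟨_, rfl⟩⟩
    intro g _
    rw [φ_eq_false]
    exact OnePoint.infty_ne_coe g
  rw [h1.closure_eq] at h2
  rcases h2 with ⟨x, hx⟩ | ⟨-, h3, -⟩
  · exact OnePoint.infty_ne_coe x (congrArg Prod.fst hx)
  · apply h3
    simp

/-! ## Continuous functions on `X` -/

/-- Initial segments. -/
def seg (z : ℕ → Bool) (n : ℕ) : List Bool := (List.range n).map z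

theorem seg_eq {x y : ℕ → Bool} {n : ℕ} (h : seg x n = seg y n) : ∀ i < n, x i = y i := by
  intro i hi
  have h1 := congrArg (fun l => l[i]?) h
  simpa [seg, hi] using h1

/-- The main lemma. -/
theorem osc (x : ℕ → Lev) (hx : StrictMono fun j => (x j).1) (R₀ : Set Idx) (hR₀ : R₀.Countable)
    (h1 : ∀ g ∈ R₀, ∀ᶠ j in atTop, φ (x j) g = true)
    (h2 : ∀ g ∉ R₀, ∀ᶠ j in atTop, φ (x j) g = false) (F : X → ℝ) (hF : Continuous F)
    {ε : ℝ} (hε : 0 < ε) : ∃ c, ∀ᶠ j in atTop, |F (pt (x j)) - c| < ε := by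
  classical
  -- Step 1: dependence on finitely many coordinates
  have step1 : ∀ j, ∃ B : ℕ, ∀ v' : V, (∀ i < B, v' i = (x j).2.1 i) →
      |F (pt ((x j).1, (v', (x j).2.2))) - F (pt (x j))| < ε / 2 := by
    intro j
    have hc : Continuous fun v' : V => F (pt ((x j).1, (v', (x j).2.2))) :=
      hF.comp (continuous_pt.comp (continuous_const.prodMk (continuous_id.prodMk continuous_const)))
    have hopen : IsOpen {v' : V | |F (pt ((x j).1, (v', (x j).2.2))) - F (pt (x j))| < ε / 2} :=
      isOpen_lt (hc.sub continuous_const).abs continuous_const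
    obtain ⟨I, u, hu, hIu⟩ := isOpen_pi_iff.1 hopen (x j).2.1 (by
      change |F (pt (x j)) - F (pt (x j))| < ε / 2
      rw [sub_self, abs_zero]
      exact half_pos hε)
    refine ⟨I.sup id + 1, fun v' hv' => hIu ?_⟩
    intro i hi
    have : i ≤ I.sup id := Finset.le_sup (f := id) hi
    rw [hv' i (by omega)]
    exact (hu i hi).2
  choose B hB using step1
  obtain ⟨e, he⟩ : ∃ e : ℕ → Idx, R₀ ⊆ Set.range e := by
    rcases R₀.eq_empty_or_nonempty with rfl | hne
    · exact ⟨fun _ => ⟨fun _ => 0⟩, Set.empty_subset _⟩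
    · obtain ⟨e, he⟩ := hR₀.exists_eq_range hne
      exact ⟨e, he.le⟩
  let h : ℕ → ℕ := fun n => ∑ j ∈ Finset.range (n + 1), (B j + (e j).f n + 1)
  have hh : ∀ n j, j ≤ n → B j ≤ h n ∧ (e j).f n < h n := by
    intro n j hj
    have h3 : B j + (e j).f n + 1 ≤ h n :=
      Finset.single_le_sum (f := fun j => B j + (e j).f n + 1) (fun i _ => Nat.zero_le _)
        (Finset.mem_range.2 (Nat.lt_succ_of_le hj))
    omega
  have hjx : ∀ j, j ≤ (x j).1 := fun j => hx.le_apply
  -- Step 2
  let G : (ℕ → Bool) → Idx := fun z => ⟨fun n => h n + Encodable.encode (seg z n)⟩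
  have hGne : ∀ z z', z ≠ z' → ∀ᶠ n in atTop, (G z).f n ≠ (G z').f n := by
    intro z z' hne
    obtain ⟨i, hi⟩ := Function.ne_iff.1 hne
    filter_upwards [eventually_gt_atTop i] with n hn heq
    have h3 : Encodable.encode (seg z n) = Encodable.encode (seg z' n) := by
      have : h n + Encodable.encode (seg z n) = h n + Encodable.encode (seg z' n) := heq
      omega
    exact hi (seg_eq (Encodable.encode_injective h3) i hn)
  have hGinj : Function.Injective G := by
    intro z z' hzz
    by_contra hne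
    obtain ⟨n, hn⟩ := (hGne z z' hne).exists
    exact hn (by rw [hzz])
  have hGR : ∀ z, ∀ g ∈ R₀, ∀ᶠ n in atTop, (G z).f n ≠ g.f n := by
    intro z g hg
    obtain ⟨i, rfl⟩ := he hg
    filter_upwards [eventually_ge_atTop i] with n hn heq
    have h3 := (hh n i hn).2
    have h4 : h n + Encodable.encode (seg z n) = (e i).f n := heq
    omega
  have hunc : ¬ (Set.range G).Countable := by
    intro hc
    have h3 := hc.preimage (f := G) hGinj
    rw [Set.preimage_range, Set.countable_univ_iff, ← Cardinal.mk_le_aleph0_iff] at h3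
    have h4 : Cardinal.mk (ℕ → Bool) = Cardinal.continuum := by simp
    rw [h4] at h3
    exact absurd h3 (not_le.2 Cardinal.aleph0_lt_continuum)
  let r : Idx → Bool := fun g => decide (g ∈ R₀ ∨ g ∈ Set.range G)
  -- Step 3: the modified points
  have step3 : ∀ T : Finset Idx, ∀ᶠ j in atTop, ∃ v' : V, (∀ i < B j, v' i = (x j).2.1 i) ∧
      ∀ g ∈ T, φ ((x j).1, (v', (x j).2.2)) g = r g := by
    intro T
    have ha : ∀ᶠ j in atTop, ∀ g ∈ T, ∀ g' ∈ T, g ∈ Set.range G → (g' ∈ R₀ ∨ g' ∈ Set.range G) →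
        g.f (x j).1 = g'.f (x j).1 → g = g' := by
      rw [Filter.eventually_all_finset]
      intro g _
      rw [Filter.eventually_all_finset]
      intro g' _
      by_cases hcase : g ∈ Set.range G ∧ (g' ∈ R₀ ∨ g' ∈ Set.range G) ∧ g ≠ g'
      · obtain ⟨⟨z, rfl⟩, h3, hne⟩ := hcase
        have h4 : ∀ᶠ n in atTop, (G z).f n ≠ g'.f n := by
          rcases h3 with h3 | ⟨z', rfl⟩
          · exact hGR z g' h3
          · exact hGne z z' (fun h => hne (by rw [h]))
        filter_upwards [hx.tendsto_atTop.eventually h4] with j hj _ _ heq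
        exact absurd heq hj
      · refine Filter.Eventually.of_forall fun j h3 h4 _ => ?_
        by_contra hne
        exact hcase ⟨h3, h4, hne⟩
    have hb : ∀ᶠ j in atTop, ∀ g ∈ T, (g ∈ R₀ → φ (x j) g = true) ∧
        (g ∉ R₀ → φ (x j) g = false) := by
      rw [Filter.eventually_all_finset]
      intro g _
      by_cases hg : g ∈ R₀
      · filter_upwards [h1 g hg] with j hj
        exact ⟨fun _ => hj, fun h => absurd hg h⟩
      · filter_upwards [h2 g hg] with j hj
        exact ⟨fun h => absurd h hg, fun _ => hj⟩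
    filter_upwards [ha, hb] with j haj hbj
    let P : ℕ → Idx → Prop := fun i g => g ∈ T ∧ g ∈ Set.range G ∧ g.f (x j).1 = i
    let v' : V := fun i => if hi : ∃ g, P i g then ((hi.choose : Idx) : OnePoint Idx)
      else (x j).2.1 i
    have hv'1 : ∀ i, (¬ ∃ g, P i g) → v' i = (x j).2.1 i := by
      intro i hi
      simp only [v']
      rw [dif_neg hi]
    have hv'2 : ∀ i, (∃ g, P i g) → ∃ g, P i g ∧ v' i = (g : OnePoint Idx) := by
      intro i hi
      refine ⟨hi.choose, hi.choose_spec, ?_⟩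
      simp only [v']
      rw [dif_pos hi]
    refine ⟨v', ?_, ?_⟩
    · intro i hi
      apply hv'1
      rintro ⟨g, -, ⟨z, rfl⟩, heq⟩
      have h3 := (hh (x j).1 j (hjx j)).1
      have h4 : h (x j).1 + Encodable.encode (seg z (x j).1) = i := heq
      omega
    · intro g hg
      by_cases hgG : g ∈ Set.range G
      · have hr : r g = true := decide_eq_true (Or.inr hgG)
        rw [hr, φ_eq_true]
        obtain ⟨g', ⟨h3, h4, h5⟩, h6⟩ := hv'2 (g.f (x j).1) ⟨g, hg, hgG, rfl⟩
        change v' (g.f (x j).1) = _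
        rw [h6, haj g' h3 g hg h4 (Or.inr hgG) h5]
      · by_cases hgR : g ∈ R₀
        · have hr : r g = true := decide_eq_true (Or.inl hgR)
          rw [hr, φ_eq_true]
          change v' (g.f (x j).1) = _
          rw [hv'1]
          · exact φ_eq_true.1 ((hbj g hg).1 hgR)
          · rintro ⟨g', h3, h4, h5⟩
            have := haj g' h3 g hg h4 (Or.inl hgR) h5
            exact hgG (this ▸ h4)
        · have hr : r g = false := decide_eq_false (by
            rintro (h | h)
            · exact hgR h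
            · exact hgG h)
          rw [hr, φ_eq_false]
          change v' (g.f (x j).1) ≠ _
          by_cases hex : ∃ g', P (g.f (x j).1) g'
          · obtain ⟨g', ⟨h3, h4, h5⟩, h6⟩ := hv'2 _ hex
            rw [h6]
            intro heq
            have := OnePoint.coe_injective heq
            exact hgG (this ▸ h4)
          · rw [hv'1 _ hex]
            exact φ_eq_false.1 ((hbj g hg).2 hgR)
  -- Step 4: the limit point
  have hcl : ((OnePoint.infty : OnePoint Lev), r) ∈ closure (Set.range ψ) := by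
    rw [mem_closure_iff_nhds]
    intro M hM
    obtain ⟨N, T, hNT⟩ := nbhd_inf hM
    obtain ⟨j, ⟨v', -, hv'⟩, hj⟩ := ((step3 T).and (eventually_ge_atTop N)).exists
    exact ⟨ψ ((x j).1, (v', (x j).2.2)), hNT ((x j).1, (v', (x j).2.2)) (hj.trans (hjx j)) _ hv',
      _, rfl⟩
  have hrunc : ¬ {g | r g = true}.Countable := by
    intro hc
    apply hunc
    apply hc.mono
    intro g hg
    exact decide_eq_true (Or.inr hg)
  let q : X := ⟨((OnePoint.infty : OnePoint Lev), r), Or.inr ⟨rfl, hrunc, hcl⟩⟩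
  refine ⟨F q, ?_⟩
  have hM : {p : X | |F p - F q| < ε / 2} ∈ 𝓝 q := by
    have hopen : IsOpen {p : X | |F p - F q| < ε / 2} :=
      isOpen_lt (hF.sub continuous_const).abs continuous_const
    apply hopen.mem_nhds
    change |F q - F q| < ε / 2
    rw [sub_self, abs_zero]
    exact half_pos hε
  obtain ⟨M, hM1, hM2⟩ := mem_nhds_subtype _ _ _ |>.1 hM
  obtain ⟨N, T, hNT⟩ := nbhd_inf hM1
  filter_upwards [step3 T, eventually_ge_atTop N] with j hj1 hj2
  obtain ⟨v', hv'1, hv'2⟩ := hj1
  have h3 : pt ((x j).1, (v', (x j).2.2)) ∈ {p : X | |F p - F q| < ε / 2} :=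
    hM2 (hNT ((x j).1, (v', (x j).2.2)) (hj2.trans (hjx j)) _ hv'2)
  have h3' : |F (pt ((x j).1, (v', (x j).2.2))) - F q| < ε / 2 := h3
  have h4 := hB j v' hv'1
  rw [abs_lt] at h3' h4 ⊢
  constructor
  · linarith [h3'.1, h4.2]
  · linarith [h3'.2, h4.1]

/-! ## The Stone–Čech compactification -/

theorem tendsto_function (x : ℕ → Lev) (hx : StrictMono fun j => (x j).1) (R₀ : Set Idx)
    (hR₀ : R₀.Countable) (h1 : ∀ g ∈ R₀, ∀ᶠ j in atTop, φ (x j) g = true)
    (h2 : ∀ g ∉ R₀, ∀ᶠ j in atTop, φ (x j) g = false) (F : X → ℝ) (hF : Continuous F) :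
    ∃ c, Tendsto (fun j => F (pt (x j))) atTop (𝓝 c) := by
  apply cauchySeq_tendsto_of_complete
  rw [Metric.cauchySeq_iff']
  intro ε hε
  obtain ⟨c, hc⟩ := osc x hx R₀ hR₀ h1 h2 F hF (half_pos hε)
  obtain ⟨N, hN⟩ := eventually_atTop.1 hc
  refine ⟨N, fun n hn => ?_⟩
  have h3 := hN n hn
  have h4 := hN N le_rfl
  rw [Real.dist_eq]
  rw [abs_lt] at h3 h4 ⊢
  constructor
  · linarith [h3.1, h4.2]
  · linarith [h3.2, h4.1]

theorem converges (x : ℕ → Lev) (hx : StrictMono fun j => (x j).1) (R₀ : Set Idx)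
    (hR₀ : R₀.Countable) (h1 : ∀ g ∈ R₀, ∀ᶠ j in atTop, φ (x j) g = true)
    (h2 : ∀ g ∉ R₀, ∀ᶠ j in atTop, φ (x j) g = false) :
    ∃ z : StoneCech X, Tendsto (fun j => stoneCechUnit (pt (x j))) atTop (𝓝 z) := by
  obtain ⟨z, hz⟩ := exists_clusterPt_of_compactSpace
    (Filter.map (fun j => stoneCechUnit (pt (x j))) atTop)
  refine ⟨z, le_nhds_of_unique_clusterPt fun y hy => ?_⟩
  by_contra hne
  obtain ⟨f, hf0, hf1, -⟩ := exists_continuous_zero_one_of_isClosed
    (isClosed_singleton (x := y)) (isClosed_singleton (x := z))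
    (Set.disjoint_singleton.2 hne)
  obtain ⟨c, hc⟩ := tendsto_function x hx R₀ hR₀ h1 h2 (fun p => f (stoneCechUnit p))
    (f.continuous.comp continuous_stoneCechUnit)
  have key : ∀ w : StoneCech X, ClusterPt w (Filter.map (fun j => stoneCechUnit (pt (x j))) atTop) →
      f w = c := by
    intro w hw
    have hw' : MapClusterPt w atTop (fun j => stoneCechUnit (pt (x j))) := hw
    have h3 : MapClusterPt (f w) atTop (f ∘ fun j => stoneCechUnit (pt (x j))) :=
      hw'.continuousAt_comp f.continuous.continuousAt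
    have h4 : ClusterPt (f w) (𝓝 c) := ClusterPt.mono h3 hc
    have h5 : (𝓝 (f w) ⊓ 𝓝 c).NeBot := h4
    exact eq_of_nhds_neBot h5
  have h3 := key y hy
  have h4 := key z hz
  have h5 : f y = 0 := hf0 rfl
  have h6 : f z = 1 := hf1 rfl
  rw [h5] at h3
  rw [h6] at h4
  exact zero_ne_one (h3.trans h4.symm)

open scoped Classical in
/-- The indicator of the `n`-th level. -/
noncomputable def ind (n : ℕ) (p : X) : Bool := decide (∃ x : Lev, x.1 = n ∧ p = pt x)

theorem ind_eq_true {n : ℕ} {p : X} : ind n p = true ↔ ∃ x : Lev, x.1 = n ∧ p = pt x := by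
  simp [ind]

theorem isClosed_level (n : ℕ) : IsCompact {p : X | ∃ x : Lev, x.1 = n ∧ p = pt x} := by
  have h1 : {p : X | ∃ x : Lev, x.1 = n ∧ p = pt x} =
      Set.range fun y : V × S => pt (n, y) := by
    ext p
    constructor
    · rintro ⟨⟨m, y⟩, rfl, rfl⟩
      exact ⟨y, rfl⟩
    · rintro ⟨y, rfl⟩
      exact ⟨(n, y), rfl, rfl⟩
  rw [h1]
  exact isCompact_range (continuous_pt.comp (continuous_const.prodMk continuous_id))

theorem isOpen_level (n : ℕ) : IsOpen {p : X | ∃ x : Lev, x.1 = n ∧ p = pt x} := by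
  have h1 : {p : X | ∃ x : Lev, x.1 = n ∧ p = pt x} =
      Subtype.val ⁻¹' (Prod.fst ⁻¹' ((↑) '' {x : Lev | x.1 = n} : Set (OnePoint Lev))) := by
    ext p
    constructor
    · rintro ⟨x, hx, rfl⟩
      exact ⟨x, hx, rfl⟩
    · rintro ⟨x, hx, hxp⟩
      refine ⟨x, hx, ?_⟩
      apply Subtype.ext
      rcases p.2 with ⟨y, hy⟩ | ⟨h1, -⟩
      · have h3 : (x : OnePoint Lev) = (ψ y).1 := hxp.trans (congrArg Prod.fst hy)
        have : x = y := OnePoint.coe_injective h3
        rw [hy, this]
        rfl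
      · exact absurd (hxp.trans h1) (OnePoint.coe_ne_infty x)
  rw [h1]
  have h2 : IsOpen {x : Lev | x.1 = n} := (isOpen_discrete {n}).preimage continuous_fst
  exact ((OnePoint.isOpen_image_coe.2 h2).preimage continuous_fst).preimage continuous_subtype_val

theorem continuous_ind (n : ℕ) : Continuous (ind n) := by
  rw [continuous_discrete_rng]
  intro b
  cases b
  · have : ind n ⁻¹' {false} = {p : X | ∃ x : Lev, x.1 = n ∧ p = pt x}ᶜ := by
      ext p
      simp [ind]
    rw [this]
    exact (isClosed_level n).isClosed.isOpen_compl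
  · have : ind n ⁻¹' {true} = {p : X | ∃ x : Lev, x.1 = n ∧ p = pt x} := by
      ext p
      simp [ind]
    rw [this]
    exact isOpen_level n

theorem not_shd_beta : ¬ SHD (StoneCech X) := by
  intro hshd
  let E : (n : ℕ) → StoneCech X → Bool := fun n => stoneCechExtend (continuous_ind n)
  have hEc : ∀ n, Continuous (E n) := fun n => continuous_stoneCechExtend _
  have hEu : ∀ n p, E n (stoneCechUnit p) = ind n p := fun n p =>
    congrFun (stoneCechExtend_extends (continuous_ind n)) p
  obtain ⟨y, hy1, hy2⟩ := hshd (fun n => E n ⁻¹' {true}) (fun n =>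
    ⟨(isOpen_discrete {true}).preimage (hEc n),
      ⟨stoneCechUnit (pt (n, (fun _ => OnePoint.infty, fun _ => false))), by
        change E n _ = true
        rw [hEu]
        exact ind_eq_true.2 ⟨_, rfl, rfl⟩⟩⟩)
  have h1 : ∀ n, ∃ x : Lev, x.1 = n ∧ y n = stoneCechUnit (pt x) := by
    intro n
    have h2 : y n ∈ closure (stoneCechUnit '' {p : X | ∃ x : Lev, x.1 = n ∧ p = pt x}) := by
      rw [mem_closure_iff]
      intro O hO hyO
      obtain ⟨p, hp⟩ := denseRange_stoneCechUnit.exists_mem_open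
        (hO.inter ((isOpen_discrete {true}).preimage (hEc n))) ⟨y n, hyO, hy1 n⟩
      refine ⟨stoneCechUnit p, hp.1, p, ?_, rfl⟩
      have h3 : E n (stoneCechUnit p) = true := hp.2
      rw [hEu] at h3
      exact ind_eq_true.1 h3
    rw [((isClosed_level n).image continuous_stoneCechUnit).isClosed.closure_eq] at h2
    obtain ⟨_, ⟨x, hx, rfl⟩, hxy⟩ := h2
    exact ⟨x, hx, hxy.symm⟩
  choose x hx1 hx2 using h1
  -- a subsequence with convergent `φ`
  let J : Set Idx := ⋃ n, {g | φ (x n) g = true}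
  have hJ : J.Countable := Set.countable_iUnion fun n => countable_supp _
  have : Countable J := hJ.to_subtype
  obtain ⟨a, k, hk, ha⟩ := CompactSpace.tendsto_subseq (fun n => fun g : J => φ (x n) g)
  have ha' : ∀ g : J, ∀ᶠ j in atTop, φ (x (k j)) g = a g := by
    intro g
    have h2 := ((continuous_apply g).tendsto a).comp ha
    exact h2.eventually (isOpen_discrete {a g} |>.mem_nhds rfl)
  let R₀ : Set Idx := {g | ∃ h : g ∈ J, a ⟨g, h⟩ = true}
  obtain ⟨z, hz⟩ := converges (fun j => x (k j)) (by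
    intro i j hij
    change (x (k i)).1 < (x (k j)).1
    rw [hx1, hx1]
    exact hk hij) R₀ (hJ.mono fun g hg => hg.1) (by
      rintro g ⟨hg, h⟩
      filter_upwards [ha' ⟨g, hg⟩] with j hj
      exact hj.trans h) (by
      intro g hg
      by_cases hgJ : g ∈ J
      · filter_upwards [ha' ⟨g, hgJ⟩] with j hj
        have h2 : a ⟨g, hgJ⟩ = false := by
          by_contra hcon
          exact hg ⟨hgJ, by simpa using hcon⟩
        exact hj.trans h2
      · refine Filter.Eventually.of_forall fun j => ?_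
        by_contra hcon
        apply hgJ
        exact Set.mem_iUnion.2 ⟨k j, by simpa using hcon⟩)
  apply hy2 k hk z
  simp only [hx2]
  exact hz

/-- There is a Tychonoff non-compact SHD space whose Stone–Čech compactification is not SHD. -/
theorem result : ∃ (X : Type) (_ : TopologicalSpace X), T35Space X ∧ ¬ CompactSpace X ∧ SHD X ∧
    ¬ SHD (StoneCech X) :=
  ⟨X, inferInstance, inferInstance, not_compact, shd_X, not_shd_beta⟩

end Pool.Agent.Results.MP_b7f2db_gt.BetaNotSHD
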